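import Pool.Agent.Y642.G.I0b

/-!
# The fixed locus is regular
-/

set_option autoImplicit false

namespace Pool.Agent.Y642.G

open Pool.Agent.Y223.G IsLocalRing Pool.Agent.W418.LU2

/-- homogeneous elements of degree not divisible by `ρ` -/
def Nd {k K : Type} [CommRing k] [Field K] [Algebra k K] (C : Subalgebra k (LP K)) (ρ : ℕ)
    (f : C) : Prop := ∃ (i : ℤ) (y : K) (h : hm i y ∈ C), ¬ (ρ : ℤ) ∣ i ∧ f = ⟨hm i y, h⟩

lemma hloc_aux (hL : S_LOCJ) {k K : Type} [CommRing k] [IsNoetherianRing k] [Field K] [Algebra k K]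
    {C : Subalgebra k (LP K)} (hft : Algebra.FiniteType k C)
    (hreg : IsRegularRing C) (hgr : Gr C) {ρ : ℕ} (hρ : 0 < ρ) {u : K} (hu0 : u ≠ 0)
    (hu : hm ρ u ∈ C) (hu' : hm (-ρ) u⁻¹ ∈ C) (Q : Ideal C) [Q.IsPrime]
    (hQ : ∀ f, Nd C ρ f → f ∈ Q) : ∃ (c : ℕ) (xs : Fin c → C),
      (∀ j, Nd C ρ (xs j)) ∧ (Ind fun j => algebraMap C (Localization.AtPrime Q) (xs j)) ∧
      ∀ f, Nd C ρ f → algebraMap C (Localization.AtPrime Q) f ∈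
        Ideal.span (Set.range fun j => algebraMap C (Localization.AtPrime Q) (xs j)) := by
  obtain ⟨c, a, x, hx, hInd, hspan⟩ := hL k K C hft hreg hgr ρ hρ u hu0 hu hu' Q (by
    intro i y h hi
    exact hQ _ ⟨i, y, h, hi, rfl⟩)
  refine ⟨c, fun j => ⟨hm (a j) (x j), (hx j).2.2⟩, fun j => ⟨a j, x j, (hx j).2.2, ?_, rfl⟩,
    hInd, ?_⟩
  · intro hdvd
    have h1 := Int.le_of_dvd (by exact_mod_cast (hx j).1) hdvd
    have h2 := (hx j).2.1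
    omega
  · rintro f ⟨i, y, h, hi, rfl⟩
    exact hspan i y h hi

section

variable {k K : Type} [CommRing k] [Field K] [Algebra k K] {C : Subalgebra k (LP K)} {ρ : ℕ}
  {u : K}

lemma ker_aux (hC : Gr C) (hρ : 0 < ρ) (hu0 : u ≠ 0) (hu : hm ρ u ∈ C)
    (hu' : hm (-ρ) u⁻¹ ∈ C) :
    RingHom.ker (phi (B := d0 C ⧸ I0 C ρ) hC hρ hu0 hu hu' 1) ≤
      Ideal.span ({f | Nd C ρ f} ∪ {(⟨hm ρ u, hu⟩ : C) - 1}) :=
  ker_phi hC hρ hu0 hu hu'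

lemma phi_z (hC : Gr C) (hρ : 0 < ρ) (hu0 : u ≠ 0) (hu : hm ρ u ∈ C)
    (hu' : hm (-ρ) u⁻¹ ∈ C) :
    phi (B := d0 C ⧸ I0 C ρ) hC hρ hu0 hu hu' 1 (⟨hm ρ u, hu⟩ - 1) = 0 := by
  have h1 : phi (B := d0 C ⧸ I0 C ρ) hC hρ hu0 hu hu' 1 ⟨hm ρ u, hu⟩ = 1 :=
    phi_u hC hρ hu0 hu hu' 1
  rw [map_sub, h1, map_one, sub_self]

end

section test

variable {k K : Type} [CommRing k] [Field K] [Algebra k K]
  {C : Subalgebra k (LP K)} (hreg : IsRegularRing C) {ρ : ℕ}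
  {A R : Type} [CommRing A] [CommRing R] [IsDomain R] (φ : C →+* A)
  (hφs : Function.Surjective φ) (q : Ideal A) [q.IsPrime]
  (g : A →+* R) (hg : ∀ x, g x = 0 ↔ x ∈ q) (Φ : C →+* DualNumber R)
  (hΦ : ∀ f, (Φ f).fst = g (φ f)) (z : C) (hz : Φ z = DualNumber.eps)
  (hz' : φ z = 0)
  (hP : ∀ f, Nd C ρ f → Φ f = 0) (hP' : ∀ f, Nd C ρ f → φ f = 0)
  (hk : RingHom.ker φ ≤ Ideal.span ({f | Nd C ρ f} ∪ {z}))
  (hloc : ∀ (Q : Ideal C) [Q.IsPrime], (∀ f, Nd C ρ f → f ∈ Q) → ∃ (c : ℕ) (xs : Fin c → C),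
    (∀ j, Nd C ρ (xs j)) ∧ (Ind fun j => algebraMap C (Localization.AtPrime Q) (xs j)) ∧
    ∀ f, Nd C ρ f → algebraMap C (Localization.AtPrime Q) f ∈
      Ideal.span (Set.range fun j => algebraMap C (Localization.AtPrime Q) (xs j)))

include hreg hg hΦ hz hz' hP hP' hk hloc hφs

/-- the abstract form -/
theorem abs1 : IsRegularLocalRing (Localization.AtPrime q) := by
  apply general φ hφs q g hg Φ hΦ z hz hz' (Nd C ρ) hP hP' hk hloc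

end test

/-- local generators -/
theorem abs2 (hL : S_LOCJ) {k K : Type} [CommRing k] [IsNoetherianRing k] [Field K] [Algebra k K]
    {C : Subalgebra k (LP K)} (hft : Algebra.FiniteType k C)
    (hreg : IsRegularRing C) (hgr : Gr C) {ρ : ℕ} (hρ : 0 < ρ) {u : K} (hu0 : u ≠ 0)
    (hu : hm ρ u ∈ C) (hu' : hm (-ρ) u⁻¹ ∈ C) :
    ∀ (Q : Ideal C) [Q.IsPrime], (∀ f, Nd C ρ f → f ∈ Q) → ∃ (c : ℕ) (xs : Fin c → C),
    (∀ j, Nd C ρ (xs j)) ∧ (Ind fun j => algebraMap C (Localization.AtPrime Q) (xs j)) ∧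
    ∀ f, Nd C ρ f → algebraMap C (Localization.AtPrime Q) f ∈
      Ideal.span (Set.range fun j => algebraMap C (Localization.AtPrime Q) (xs j)) := by
  intro Q _ hQ
  exact hloc_aux hL hft hreg hgr hρ hu0 hu hu' Q hQ

/-- one prime -/
theorem abs3 (hL : S_LOCJ) {k K : Type} [CommRing k] [IsNoetherianRing k] [Field K] [Algebra k K]
    {C : Subalgebra k (LP K)} (hft : Algebra.FiniteType k C)
    (hreg : IsRegularRing C) (hgr : Gr C) {ρ : ℕ} (hρ : 0 < ρ) {u : K} (hu0 : u ≠ 0)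
    (hu : hm ρ u ∈ C) (hu' : hm (-ρ) u⁻¹ ∈ C)
    (R : Type) [CommRing R] [IsDomain R] [Algebra (d0 C ⧸ I0 C ρ) R]
    (q : Ideal (d0 C ⧸ I0 C ρ)) [q.IsPrime]
    (hq : ∀ x, algebraMap (d0 C ⧸ I0 C ρ) R x = 0 ↔ x ∈ q) :
    IsRegularLocalRing (Localization.AtPrime q) := by
  have h1 := phi_surj hgr hρ hu0 hu hu'
  have h2 := phiD_fst R hgr hρ hu0 hu hu'
  have h3 := phiD_u R hgr hρ hu0 hu hu'
  have h4 := phi_z hgr hρ hu0 hu hu'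
  have h5 := ker_aux hgr hρ hu0 hu hu'
  have h6 : ∀ f, Nd C ρ f → phiD R hgr hρ hu0 hu hu' f = 0 := by
    rintro f ⟨i, y, h, hi, rfl⟩
    exact phiD_not R _ _ _ _ _ i y h hi
  have h7 : ∀ f, Nd C ρ f → phi (B := d0 C ⧸ I0 C ρ) hgr hρ hu0 hu hu' 1 f = 0 := by
    rintro f ⟨i, y, h, hi, rfl⟩
    exact phi_not _ _ _ _ _ _ i y h hi
  have h8 := abs2 hL hft hreg hgr hρ hu0 hu hu'
  generalize phi (B := d0 C ⧸ I0 C ρ) hgr hρ hu0 hu hu' 1 = φ at *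
  generalize phiD R hgr hρ hu0 hu hu' = Φ at *
  generalize (⟨hm ρ u, hu⟩ : C) - 1 = z at *
  exact abs1 hreg φ h1 q (algebraMap (d0 C ⧸ I0 C ρ) R) hq Φ h2 z h3 h4 h6 h7 h5 h8

theorem t_I0REG : S_LOCJ → S_I0REG := by
  intro hL k K _ _ _ _ C hft hreg hgr ρ hρ u hu0 hu hu'
  have hCn : IsNoetherianRing C := inferInstance
  have hφs := phi_surj hgr hρ hu0 hu hu'
  have hAn : IsNoetherianRing (d0 C ⧸ I0 C ρ) := isNoetherianRing_of_surjective C _ _ hφs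
  rw [isRegularRing_iff]
  intro q hq
  have hRd : IsDomain ((d0 C ⧸ I0 C ρ) ⧸ q) := Ideal.Quotient.isDomain q
  exact abs3 hL hft hreg hgr hρ hu0 hu hu' ((d0 C ⧸ I0 C ρ) ⧸ q) q fun x =>
    Ideal.Quotient.eq_zero_iff_mem

end Pool.Agent.Y642.G
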