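import Pool.Agent.Y642.G.Phi

/-!
# The fixed locus is regular
-/

set_option autoImplicit false

namespace Pool.Agent.Y642.G

open Pool.Agent.Y223.G IsLocalRing Pool.Agent.W418.LU2

section ker

variable {k K : Type} [CommRing k] [Field K] [Algebra k K] {C : Subalgebra k (LP K)} {ρ : ℕ}
  {u : K}

/-- the homogeneous elements of degree zero -/
noncomputable def iota (C : Subalgebra k (LP K)) : d0 C →+* C where
  toFun r := ⟨hm 0 (r : K), r.2⟩
  map_one' := Subtype.ext hm_one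
  map_mul' x y := by
    apply Subtype.ext
    change hm 0 ((x : K) * y) = hm 0 (x : K) * hm 0 (y : K)
    rw [hm_mul, add_zero]
  map_zero' := Subtype.ext (hm_zero 0)
  map_add' x y := by
    apply Subtype.ext
    exact hm_add 0 _ _

/-- the kernel of the ring homomorphism -/
noncomputable def kerI (C : Subalgebra k (LP K)) (ρ : ℕ) (hu : hm ρ u ∈ C) : Ideal C :=
  Ideal.span ({f : C | ∃ (i : ℤ) (y : K) (h : hm i y ∈ C), ¬ (ρ : ℤ) ∣ i ∧ f = ⟨hm i y, h⟩} ∪
    {(⟨hm ρ u, hu⟩ : C) - 1})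

lemma iota_mem (hu : hm ρ u ∈ C) {r : d0 C} (hr : r ∈ I0 C ρ) : iota C r ∈ kerI C ρ hu := by
  have h1 : I0 C ρ ≤ (kerI C ρ hu).comap (iota C) := by
    unfold I0
    rw [Ideal.span_le]
    rintro y ⟨i, hi, hi', s, t, hs, ht, hy⟩
    rw [SetLike.mem_coe, Ideal.mem_comap]
    have h2 : iota C y = ⟨hm i s, hs⟩ * ⟨hm (-(i : ℤ)) t, ht⟩ := by
      apply Subtype.ext
      change hm 0 (y : K) = hm i s * hm (-(i : ℤ)) t
      rw [hm_mul, hy, add_neg_cancel]
    rw [h2]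
    apply Ideal.mul_mem_right
    apply Ideal.subset_span
    left
    refine ⟨i, s, hs, ?_, rfl⟩
    intro hdvd
    have := Int.le_of_dvd (by exact_mod_cast hi) hdvd
    omega
  exact h1 hr

/-- the unit of degree `ρ` -/
noncomputable def uni (hu0 : u ≠ 0) (hu : hm ρ u ∈ C) (hu' : hm (-ρ) u⁻¹ ∈ C) : Cˣ where
  val := ⟨hm ρ u, hu⟩
  inv := ⟨hm (-ρ) u⁻¹, hu'⟩
  val_inv := by
    apply Subtype.ext
    change hm (ρ : ℤ) u * hm (-(ρ : ℤ)) u⁻¹ = 1
    rw [hm_mul, add_neg_cancel, mul_inv_cancel₀ hu0, hm_one]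
  inv_val := by
    apply Subtype.ext
    change hm (-(ρ : ℤ)) u⁻¹ * hm (ρ : ℤ) u = 1
    rw [hm_mul, neg_add_cancel, inv_mul_cancel₀ hu0, hm_one]

lemma coe_uni_zpow (hu0 : u ≠ 0) (hu : hm ρ u ∈ C) (hu' : hm (-ρ) u⁻¹ ∈ C) (j : ℤ) :
    (((uni hu0 hu hu' ^ j : Cˣ) : C) : LP K) = hm (j * ρ) (u ^ j) := by
  rcases le_or_gt 0 j with h | h
  · obtain ⟨n, rfl⟩ := Int.eq_ofNat_of_zero_le h
    rw [zpow_natCast, Units.val_pow_eq_pow_val]
    change (hm (ρ : ℤ) u) ^ n = _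
    rw [hm_pow, zpow_natCast]
  · obtain ⟨n, hn⟩ := Int.eq_ofNat_of_zero_le (a := -j) (by omega)
    have hj : j = -(n : ℤ) := by
      have : -j = (n : ℤ) := hn
      omega
    subst hj
    rw [zpow_neg, zpow_natCast, ← inv_pow, Units.val_pow_eq_pow_val]
    change (hm (-(ρ : ℤ)) u⁻¹) ^ n = _
    rw [hm_pow, zpow_neg, zpow_natCast, inv_pow]
    congr 1
    ring

lemma uni_sub_one_mem (hu0 : u ≠ 0) (hu : hm ρ u ∈ C) (hu' : hm (-ρ) u⁻¹ ∈ C) (j : ℤ) :
    ((uni hu0 hu hu' ^ j : Cˣ) : C) - 1 ∈ kerI C ρ hu := by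
  rw [← Ideal.Quotient.eq_zero_iff_mem, map_sub, map_one, sub_eq_zero]
  have h1 : Units.map (Ideal.Quotient.mk (kerI C ρ hu)).toMonoidHom (uni hu0 hu hu') = 1 := by
    apply Units.ext
    rw [Units.coe_map, Units.val_one]
    change Ideal.Quotient.mk (kerI C ρ hu) ⟨hm ρ u, hu⟩ = 1
    rw [← sub_eq_zero, ← map_one (Ideal.Quotient.mk (kerI C ρ hu)), ← map_sub,
      Ideal.Quotient.eq_zero_iff_mem]
    apply Ideal.subset_span
    right
    rfl
  have h2 : Units.map (Ideal.Quotient.mk (kerI C ρ hu)).toMonoidHom (uni hu0 hu hu' ^ j) = 1 := by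
    rw [map_zpow, h1, one_zpow]
  have h3 := congrArg Units.val h2
  rw [Units.coe_map, Units.val_one] at h3
  exact h3

lemma exists_rep (hC : Gr C) (hρ : 0 < ρ) (hu0 : u ≠ 0) (hu : hm ρ u ∈ C)
    (hu' : hm (-ρ) u⁻¹ ∈ C) (f : C) :
    ∃ r : d0 C, f - iota C r ∈ kerI C ρ hu ∧
      phi (B := d0 C ⧸ I0 C ρ) hC hρ hu0 hu hu' 1 f = Ideal.Quotient.mk (I0 C ρ) r := by
  have hhom : ∀ d : ℤ, ∃ r : d0 C, cmp hC f d - iota C r ∈ kerI C ρ hu ∧
      phi (B := d0 C ⧸ I0 C ρ) hC hρ hu0 hu hu' 1 (cmp hC f d) = Ideal.Quotient.mk (I0 C ρ) r := by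
    intro d
    have ha := hC f f.2 d
    set a := (f : LP K).coeff d with hadef
    have hcmp : cmp hC f d = ⟨hm d a, ha⟩ := rfl
    rw [hcmp, phi_hm]
    by_cases hd : (ρ : ℤ) ∣ d
    · have h1 := shift_zero hu hu' hd ha
      refine ⟨⟨a * u ^ (-(d / (ρ : ℤ))), h1⟩, ?_, ?_⟩
      · have h2 : (⟨hm d a, ha⟩ : C) - iota C ⟨a * u ^ (-(d / (ρ : ℤ))), h1⟩ =
            iota C ⟨a * u ^ (-(d / (ρ : ℤ))), h1⟩ *
              (((uni hu0 hu hu' ^ (d / (ρ : ℤ)) : Cˣ) : C) - 1) := by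
          rw [mul_sub, mul_one]
          congr 1
          apply Subtype.ext
          change hm d a = hm 0 (a * u ^ (-(d / (ρ : ℤ)))) *
            (((uni hu0 hu hu' ^ (d / (ρ : ℤ)) : Cˣ) : C) : LP K)
          rw [coe_uni_zpow, hm_mul, zero_add, Int.ediv_mul_cancel hd, mul_assoc,
            ← zpow_add₀ hu0, neg_add_cancel, zpow_zero, mul_one]
        rw [h2]
        exact Ideal.mul_mem_left _ _ (uni_sub_one_mem hu0 hu hu' _)
      · rw [tm_of_dvd 1 hd h1, one_zpow, Units.val_one, mul_one]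
        rfl
    · refine ⟨0, ?_, ?_⟩
      · rw [map_zero, sub_zero]
        apply Ideal.subset_span
        left
        exact ⟨d, a, ha, hd, rfl⟩
      · rw [tm_of_not 1 hd, map_zero]
  choose r hr1 hr2 using hhom
  refine ⟨∑ d ∈ (f : LP K).coeff.support, r d, ?_, ?_⟩
  · have h1 : f - iota C (∑ d ∈ (f : LP K).coeff.support, r d) =
        ∑ d ∈ (f : LP K).coeff.support, (cmp hC f d - iota C (r d)) := by
      rw [Finset.sum_sub_distrib, ← map_sum, ← eq_sum_cmp hC f]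
    rw [h1]
    exact Ideal.sum_mem _ fun d _ => hr1 d
  · conv_lhs => rw [eq_sum_cmp hC f]
    rw [map_sum, map_sum]
    exact Finset.sum_congr rfl fun d _ => hr2 d

lemma ker_phi (hC : Gr C) (hρ : 0 < ρ) (hu0 : u ≠ 0) (hu : hm ρ u ∈ C)
    (hu' : hm (-ρ) u⁻¹ ∈ C) :
    RingHom.ker (phi (B := d0 C ⧸ I0 C ρ) hC hρ hu0 hu hu' 1) ≤ kerI C ρ hu := by
  intro f hf
  obtain ⟨r, h1, h2⟩ := exists_rep hC hρ hu0 hu hu' f
  rw [RingHom.mem_ker] at hf
  rw [hf] at h2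
  have h3 : r ∈ I0 C ρ := Ideal.Quotient.eq_zero_iff_mem.mp h2.symm
  have h4 := (kerI C ρ hu).add_mem h1 (iota_mem hu h3)
  rwa [sub_add_cancel] at h4

lemma phi_surj (hC : Gr C) (hρ : 0 < ρ) (hu0 : u ≠ 0) (hu : hm ρ u ∈ C)
    (hu' : hm (-ρ) u⁻¹ ∈ C) :
    Function.Surjective (phi (B := d0 C ⧸ I0 C ρ) hC hρ hu0 hu hu' 1) := by
  intro y
  obtain ⟨r, rfl⟩ := Ideal.Quotient.mk_surjective y
  have hr : hm 0 (r : K) ∈ C := r.2
  refine ⟨⟨hm 0 (r : K), hr⟩, ?_⟩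
  rw [phi_hm]
  have h1 : hm 0 ((r : K) * u ^ (-((0 : ℤ) / ρ))) ∈ C := by
    rw [Int.zero_ediv, neg_zero, zpow_zero, mul_one]; exact r.2
  rw [tm_of_dvd 1 (dvd_zero _) h1, one_zpow, Units.val_one, mul_one]
  change Ideal.Quotient.mk (I0 C ρ) _ = _
  congr 1
  apply Subtype.ext
  change (r : K) * u ^ (-((0 : ℤ) / ρ)) = r
  rw [Int.zero_ediv, neg_zero, zpow_zero, mul_one]

end ker

/-- the unit `1 + ε` of the dual numbers -/
def oneEps (R : Type) [CommRing R] : (DualNumber R)ˣ where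
  val := 1 + DualNumber.eps
  inv := 1 - DualNumber.eps
  val_inv := by
    have h := DualNumber.eps_mul_eps (R := R)
    linear_combination -h
  inv_val := by
    have h := DualNumber.eps_mul_eps (R := R)
    linear_combination -h

lemma mul_eq_zero_of_fst {R : Type} [CommRing R] {x y : DualNumber R} (hx : x.fst = 0)
    (hy : y.fst = 0) : x * y = 0 := by
  apply TrivSqZeroExt.ext
  · rw [TrivSqZeroExt.fst_mul, hx, zero_mul]; rfl
  · rw [TrivSqZeroExt.snd_mul, hx, hy]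
    simp

section alg

variable {C : Type} [CommRing C] (Q : Ideal C) [Q.IsPrime]

lemma hmax (f : C) : algebraMap C (Localization.AtPrime Q) f ∈
    maximalIdeal (Localization.AtPrime Q) ↔ f ∈ Q :=
  IsLocalization.AtPrime.to_map_mem_maximal_iff (Localization.AtPrime Q) Q f

/-- independence by means of a homomorphism to the dual numbers -/
lemma ind_of_dual {R : Type} [CommRing R] [IsDomain R] (Φ : C →+* DualNumber R)
    (hmemQ : ∀ f : C, f ∈ Q ↔ (Φ f).fst = 0) {c : ℕ} (xs : Fin c → C) (z : C)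
    (hΦx : ∀ j, Φ (xs j) = 0) (hΦz : Φ z = DualNumber.eps)
    (hInd : Ind fun j => algebraMap C (Localization.AtPrime Q) (xs j)) :
    Ind fun i : Fin c ⊕ Fin 1 => algebraMap C (Localization.AtPrime Q)
      (Sum.elim xs (fun _ => z) i) := by
  have hz0 : z ∈ Q := by rw [hmemQ, hΦz, DualNumber.fst_eps]
  have hx0 : ∀ j, xs j ∈ Q := by
    intro j
    rw [hmemQ, hΦx, TrivSqZeroExt.fst_zero]
  refine ⟨fun i => (hmax Q _).mpr ?_, fun g hg => ?_⟩
  · rcases i with j | j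
    · exact hx0 j
    · exact hz0
  -- the coefficient of `z`
  rw [Fintype.sum_sum_type, Fin.sum_univ_one] at hg
  simp only [Sum.elim_inl, Sum.elim_inr] at hg
  have hz : g (Sum.inr 0) ∈ maximalIdeal (Localization.AtPrime Q) := by
    obtain ⟨b, hb⟩ := IsLocalization.exist_integer_multiples_of_finite Q.primeCompl g
    choose G hG using hb
    have h1 : algebraMap C (Localization.AtPrime Q) (∑ j, G (Sum.inl j) * xs j + G (Sum.inr 0) * z) ∈
        (Q ^ 2).map (algebraMap C (Localization.AtPrime Q)) := by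
      have h2 : algebraMap C (Localization.AtPrime Q)
          (∑ j, G (Sum.inl j) * xs j + G (Sum.inr 0) * z) =
          algebraMap C (Localization.AtPrime Q) (b : C) *
            (∑ j, g (Sum.inl j) * algebraMap C (Localization.AtPrime Q) (xs j) +
              g (Sum.inr 0) * algebraMap C (Localization.AtPrime Q) z) := by
        rw [map_add, map_sum, mul_add, Finset.mul_sum, map_mul, hG, Algebra.smul_def, mul_assoc]
        congr 1
        refine Finset.sum_congr rfl fun i _ => ?_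
        rw [map_mul, hG, Algebra.smul_def, mul_assoc]
      rw [h2, Ideal.map_pow, Localization.AtPrime.map_eq_maximalIdeal]
      exact Ideal.mul_mem_left _ _ hg
    rw [IsLocalization.algebraMap_mem_map_algebraMap_iff Q.primeCompl] at h1
    obtain ⟨t, ht, ht2⟩ := h1
    have h3 : Q ^ 2 ≤ RingHom.ker Φ := by
      rw [sq, Ideal.mul_le]
      intro r hr s hs
      rw [RingHom.mem_ker, map_mul]
      exact mul_eq_zero_of_fst ((hmemQ r).mp hr) ((hmemQ s).mp hs)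
    have h4 := h3 ht2
    rw [RingHom.mem_ker, map_mul, map_add, map_sum, map_mul, hΦz] at h4
    have h5 : ∀ j ∈ Finset.univ, Φ (G (Sum.inl j) * xs j) = 0 := by
      intro j _
      rw [map_mul, hΦx, mul_zero]
    rw [Finset.sum_congr rfl h5, Finset.sum_const_zero, zero_add] at h4
    have h6 := congrArg TrivSqZeroExt.snd h4
    rw [TrivSqZeroExt.snd_mul, TrivSqZeroExt.snd_mul, TrivSqZeroExt.fst_mul,
      DualNumber.fst_eps, DualNumber.snd_eps, TrivSqZeroExt.snd_zero] at h6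
    simp only [smul_eq_mul, mul_one, mul_zero, MulOpposite.op_zero, zero_smul, add_zero] at h6
    rcases mul_eq_zero.mp h6 with h7 | h7
    · exact absurd ((hmemQ t).mpr h7) ht
    · have h8 : G (Sum.inr 0) ∈ Q := (hmemQ _).mpr h7
      have h9 := (hmax Q _).mpr h8
      rw [hG, Algebra.smul_def] at h9
      rcases (maximalIdeal.isMaximal (Localization.AtPrime Q)).isPrime.mem_or_mem h9 with h10 | h10
      · exact absurd ((hmax Q _).mp h10) b.2
      · exact h10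
  have h1 : ∑ j, g (Sum.inl j) * algebraMap C (Localization.AtPrime Q) (xs j) ∈
      maximalIdeal (Localization.AtPrime Q) ^ 2 := by
    have h2 : g (Sum.inr 0) * algebraMap C (Localization.AtPrime Q) z ∈
        maximalIdeal (Localization.AtPrime Q) ^ 2 := by
      rw [sq]
      exact Ideal.mul_mem_mul hz ((hmax Q _).mpr hz0)
    exact (Ideal.add_mem_iff_left _ h2).mp hg
  have h2 := hInd.2 (fun j => g (Sum.inl j)) h1
  rintro (j | j)
  · exact h2 j
  · rw [Subsingleton.elim j 0]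
    exact hz

/-- regularity of a quotient -/
lemma regular_quot {A : Type} [CommRing A] (φ : C →+* A) (hφ : Function.Surjective φ)
    (q : Ideal A) [q.IsPrime] (hq : Q = q.comap φ) [IsRegularLocalRing (Localization.AtPrime Q)]
    {ι : Type} [Fintype ι] (Y : ι → Localization.AtPrime Q) (hY : Ind Y)
    (hk : Ideal.span (Set.range Y) =
      (RingHom.ker φ).map (algebraMap C (Localization.AtPrime Q))) :
    IsRegularLocalRing (Localization.AtPrime q) := by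
  have hYreg := hY.regular
  have hmem : ∀ f : C, f ∈ Q.primeCompl ↔ φ f ∈ q.primeCompl := by
    intro f
    rw [Ideal.mem_primeCompl_iff, Ideal.mem_primeCompl_iff, hq, Ideal.mem_comap]
  have hT : Submonoid.map φ Q.primeCompl = q.primeCompl := by
    ext y
    constructor
    · rintro ⟨f, hf, rfl⟩
      exact (hmem f).mp hf
    · intro hy
      obtain ⟨f, rfl⟩ := hφ y
      exact ⟨f, (hmem f).mpr hy, rfl⟩
  let F : Localization.AtPrime Q →+* Localization.AtPrime q :=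
    IsLocalization.map (Localization.AtPrime q) φ (hT ▸ Q.primeCompl.le_comap_map)
  have hFs : Function.Surjective F := by
    intro y
    obtain ⟨n, ⟨s, hs⟩, rfl⟩ := IsLocalization.exists_mk'_eq q.primeCompl y
    obtain ⟨f, rfl⟩ := hφ n
    obtain ⟨t, rfl⟩ := hφ s
    refine ⟨IsLocalization.mk' (Localization.AtPrime Q) f ⟨t, (hmem t).mpr hs⟩, ?_⟩
    exact IsLocalization.map_mk' _ _ _
  have hFk : RingHom.ker F = (RingHom.ker φ).map (algebraMap C (Localization.AtPrime Q)) :=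
    IsLocalization.ker_map (Localization.AtPrime q) φ hT
  let e : (Localization.AtPrime Q ⧸ Ideal.span (Set.range Y)) ≃+* Localization.AtPrime q :=
    (Ideal.quotEquivOfEq (hk.trans hFk.symm)).trans (RingHom.quotientKerEquivOfSurjective hFs)
  exact IsRegularLocalRing.of_ringEquiv e

end alg

section final

variable {k K : Type} [CommRing k] [Field K] [Algebra k K] {C : Subalgebra k (LP K)} {ρ : ℕ}
  {u : K}

lemma phi_not (hC : Gr C) (hρ : 0 < ρ) (hu0 : u ≠ 0) (hu : hm ρ u ∈ C)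
    (hu' : hm (-ρ) u⁻¹ ∈ C) {B : Type} [CommRing B] [Algebra (d0 C ⧸ I0 C ρ) B] (w : Bˣ)
    (i : ℤ) (y : K) (h : hm i y ∈ C) (hi : ¬ (ρ : ℤ) ∣ i) :
    phi hC hρ hu0 hu hu' w ⟨hm i y, h⟩ = 0 := by
  rw [phi_hm, tm_of_not _ hi]

lemma phi_u (hC : Gr C) (hρ : 0 < ρ) (hu0 : u ≠ 0) (hu : hm ρ u ∈ C)
    (hu' : hm (-ρ) u⁻¹ ∈ C) {B : Type} [CommRing B] [Algebra (d0 C ⧸ I0 C ρ) B] (w : Bˣ) :
    phi hC hρ hu0 hu hu' w ⟨hm ρ u, hu⟩ = w := by
  have hρ' : (0 : ℤ) < ρ := by exact_mod_cast hρ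
  have hone : hm 0 (u * u ^ (-((ρ : ℤ) / ρ))) ∈ C := by
    rw [Int.ediv_self hρ'.ne', zpow_neg_one, mul_inv_cancel₀ hu0, hm_one]
    exact C.one_mem
  have hone' : (⟨u * u ^ (-((ρ : ℤ) / ρ)), hone⟩ : d0 C) = 1 := by
    apply Subtype.ext
    change u * u ^ (-((ρ : ℤ) / ρ)) = 1
    rw [Int.ediv_self hρ'.ne', zpow_neg_one, mul_inv_cancel₀ hu0]
  rw [phi_hm, tm_of_dvd _ dvd_rfl hone, hone', map_one, map_one, one_mul,
    Int.ediv_self hρ'.ne', zpow_one]

variable (R : Type) [CommRing R] [Algebra (d0 C ⧸ I0 C ρ) R]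

/-- the homomorphism to the dual numbers -/
noncomputable def phiD (hC : Gr C) (hρ : 0 < ρ) (hu0 : u ≠ 0) (hu : hm ρ u ∈ C)
    (hu' : hm (-ρ) u⁻¹ ∈ C) : C →+* DualNumber R :=
  phi (B := DualNumber R) hC hρ hu0 hu hu' (oneEps R)

lemma phiD_not (hC : Gr C) (hρ : 0 < ρ) (hu0 : u ≠ 0) (hu : hm ρ u ∈ C)
    (hu' : hm (-ρ) u⁻¹ ∈ C) (i : ℤ) (y : K) (h : hm i y ∈ C) (hi : ¬ (ρ : ℤ) ∣ i) :
    phiD R hC hρ hu0 hu hu' ⟨hm i y, h⟩ = 0 := phi_not hC hρ hu0 hu hu' _ i y h hi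

lemma phiD_u (hC : Gr C) (hρ : 0 < ρ) (hu0 : u ≠ 0) (hu : hm ρ u ∈ C)
    (hu' : hm (-ρ) u⁻¹ ∈ C) :
    phiD R hC hρ hu0 hu hu' (⟨hm ρ u, hu⟩ - 1) = DualNumber.eps := by
  rw [map_sub, map_one]
  have h := phi_u hC hρ hu0 hu hu' (B := DualNumber R) (oneEps R)
  change phi (B := DualNumber R) hC hρ hu0 hu hu' (oneEps R) ⟨hm ρ u, hu⟩ - 1 = _
  rw [h]
  change (1 + DualNumber.eps : DualNumber R) - 1 = _
  exact add_sub_cancel_left _ _

lemma phiD_fst (hC : Gr C) (hρ : 0 < ρ) (hu0 : u ≠ 0) (hu : hm ρ u ∈ C)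
    (hu' : hm (-ρ) u⁻¹ ∈ C) (f : C) :
    (phiD R hC hρ hu0 hu hu' f).fst =
      algebraMap (d0 C ⧸ I0 C ρ) R (phi (B := d0 C ⧸ I0 C ρ) hC hρ hu0 hu hu' 1 f) := by
  have h1 := phi_comp (oneEps R) hu0 hu hu' hC hρ
    (TrivSqZeroExt.fstHom (d0 C ⧸ I0 C ρ) R R) (1 : Rˣ) (by
      change (1 + DualNumber.eps : DualNumber R).fst = 1
      rw [TrivSqZeroExt.fst_add, DualNumber.fst_eps, TrivSqZeroExt.fst_one, add_zero])
  have h2 := phi_comp (1 : (d0 C ⧸ I0 C ρ)ˣ) hu0 hu hu' hC hρ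
    (Algebra.ofId (d0 C ⧸ I0 C ρ) R) (1 : Rˣ) (by
      rw [Units.val_one, Units.val_one, map_one])
  have h3 := h1.trans h2.symm
  exact congrArg (fun g => g f) h3

end final

end Pool.Agent.Y642.G
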