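import Pool.Agent.Y642.G.I0a

/-!
# The fixed locus is regular
-/

set_option autoImplicit false

namespace Pool.Agent.Y642.G

open Pool.Agent.Y223.G IsLocalRing Pool.Agent.W418.LU2

/-- regularity at one prime, general rings -/
lemma general {C A R : Type} [CommRing C] [CommRing A] [CommRing R] [IsDomain R]
    [IsRegularRing C] (φ : C →+* A) (hφs : Function.Surjective φ) (q : Ideal A) [q.IsPrime]
    (g : A →+* R) (hg : ∀ x, g x = 0 ↔ x ∈ q) (Φ : C →+* DualNumber R)
    (hΦ : ∀ f, (Φ f).fst = g (φ f)) (z : C) (hz : Φ z = DualNumber.eps) (hz' : φ z = 0)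
    (P : C → Prop) (hP : ∀ f, P f → Φ f = 0) (hP' : ∀ f, P f → φ f = 0)
    (hk : RingHom.ker φ ≤ Ideal.span ({f | P f} ∪ {z}))
    (hloc : ∀ (Q : Ideal C) [Q.IsPrime], (∀ f, P f → f ∈ Q) → ∃ (c : ℕ) (xs : Fin c → C),
      (∀ j, P (xs j)) ∧ (Ind fun j => algebraMap C (Localization.AtPrime Q) (xs j)) ∧
      ∀ f, P f → algebraMap C (Localization.AtPrime Q) f ∈
        Ideal.span (Set.range fun j => algebraMap C (Localization.AtPrime Q) (xs j))) :
    IsRegularLocalRing (Localization.AtPrime q) := by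
  obtain ⟨Q, hQ⟩ : ∃ Q, Q = q.comap φ := ⟨_, rfl⟩
  have hQp : Q.IsPrime := hQ ▸ Ideal.comap_isPrime _ _
  have hmemQ : ∀ f : C, f ∈ Q ↔ (Φ f).fst = 0 := by
    intro f
    rw [hΦ, hg, hQ, Ideal.mem_comap]
  obtain ⟨c, xs, hx, hInd, hspan⟩ := hloc Q fun f hf => by
    rw [hmemQ, hP f hf, TrivSqZeroExt.fst_zero]
  have hInd2 := ind_of_dual Q Φ hmemQ xs z (fun j => hP _ (hx j)) hz hInd
  have hreg' : IsRegularLocalRing (Localization.AtPrime Q) :=
    IsRegularRing.isRegularLocalRing_localization Q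
  refine regular_quot Q φ hφs q hQ _ hInd2 ?_
  apply le_antisymm
  · rw [Ideal.span_le]
    rintro _ ⟨i, rfl⟩
    apply Ideal.mem_map_of_mem
    rw [RingHom.mem_ker]
    rcases i with j | j
    · exact hP' _ (hx j)
    · exact hz'
  · refine (Ideal.map_mono hk).trans ?_
    rw [Ideal.map_le_iff_le_comap, Ideal.span_le]
    rintro f (hf | hf)
    · rw [SetLike.mem_coe, Ideal.mem_comap]
      refine Ideal.span_mono ?_ (hspan f hf)
      rintro _ ⟨j, rfl⟩
      exact ⟨Sum.inl j, rfl⟩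
    · rw [Set.mem_singleton_iff] at hf
      rw [hf, SetLike.mem_coe, Ideal.mem_comap]
      exact Ideal.subset_span ⟨Sum.inr 0, rfl⟩

end Pool.Agent.Y642.G
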