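import Pool.Agent.Y223.G.Stm

/-!
# The ring homomorphism which forgets the degrees not divisible by `ρ`
-/

set_option autoImplicit false

namespace Pool.Agent.Y642.G

open Pool.Agent.Y223.G IsLocalRing Pool.Agent.W418.LU2

section hom

variable {k K : Type} [CommRing k] [Field K] [Algebra k K] {C : Subalgebra k (LP K)} {ρ : ℕ}
  {u : K}

lemma shift_mem (hu : hm ρ u ∈ C) (hu' : hm (-ρ) u⁻¹ ∈ C) {d : ℤ} {a : K}
    (h : hm d a ∈ C) (j : ℤ) : hm (d - j * ρ) (a * u ^ (-j)) ∈ C := by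
  have h1 := C.mul_mem h (zpow_unit_mem hu hu' (-j))
  rw [hm_mul] at h1
  have e : d + -j * (ρ : ℤ) = d - j * ρ := by ring
  rwa [e] at h1

lemma shift_zero (hu : hm ρ u ∈ C) (hu' : hm (-ρ) u⁻¹ ∈ C) {d : ℤ} {a : K}
    (hd : (ρ : ℤ) ∣ d) (h : hm d a ∈ C) : hm 0 (a * u ^ (-(d / ρ))) ∈ C := by
  have h1 := shift_mem hu hu' h (d / ρ)
  have e : d - d / ρ * ρ = 0 := by
    rw [Int.ediv_mul_cancel hd, sub_self]
  rwa [e] at h1

variable {B : Type} [CommRing B] [Algebra (d0 C ⧸ I0 C ρ) B] (w : Bˣ)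

open Classical in
/-- the image of a homogeneous element -/
noncomputable def tm (u : K) (w : Bˣ) (d : ℤ) (a : K) : B :=
  if h : (ρ : ℤ) ∣ d ∧ hm 0 (a * u ^ (-(d / ρ))) ∈ C then
    algebraMap (d0 C ⧸ I0 C ρ) B (Ideal.Quotient.mk (I0 C ρ) ⟨a * u ^ (-(d / ρ)), h.2⟩) *
      ((w ^ (d / (ρ : ℤ)) : Bˣ) : B)
  else 0

lemma tm_of_dvd {d : ℤ} {a : K} (hd : (ρ : ℤ) ∣ d) (h : hm 0 (a * u ^ (-(d / ρ))) ∈ C) :
    tm (C := C) (ρ := ρ) u w d a =
      algebraMap (d0 C ⧸ I0 C ρ) B (Ideal.Quotient.mk (I0 C ρ) ⟨a * u ^ (-(d / ρ)), h⟩) *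
      ((w ^ (d / (ρ : ℤ)) : Bˣ) : B) := by
  unfold tm
  rw [dif_pos ⟨hd, h⟩]

lemma tm_of_not {d : ℤ} {a : K} (hd : ¬ (ρ : ℤ) ∣ d) :
    tm (C := C) (ρ := ρ) u w d a = 0 := by
  unfold tm
  rw [dif_neg fun h => hd h.1]

lemma tm_zero (d : ℤ) : tm (C := C) (ρ := ρ) u w d 0 = 0 := by
  unfold tm
  split_ifs with h
  · have : (⟨0 * u ^ (-(d / (ρ : ℤ))), h.2⟩ : d0 C) = 0 := by
      apply Subtype.ext
      exact zero_mul _
    rw [this, map_zero, map_zero, zero_mul]
  · rfl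

variable (hu0 : u ≠ 0) (hu : hm ρ u ∈ C) (hu' : hm (-ρ) u⁻¹ ∈ C)

include hu hu' in
lemma tm_add {d : ℤ} {a b : K} (ha : hm d a ∈ C) (hb : hm d b ∈ C) :
    tm (C := C) (ρ := ρ) u w d (a + b) = tm (C := C) (ρ := ρ) u w d a +
      tm (C := C) (ρ := ρ) u w d b := by
  by_cases hd : (ρ : ℤ) ∣ d
  · have h1 := shift_zero hu hu' hd ha
    have h2 := shift_zero hu hu' hd hb
    have h3 : hm 0 ((a + b) * u ^ (-(d / (ρ : ℤ)))) ∈ C := by
      rw [add_mul, hm_add]; exact C.add_mem h1 h2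
    rw [tm_of_dvd w hd h1, tm_of_dvd w hd h2, tm_of_dvd w hd h3, ← add_mul, ← map_add, ← map_add]
    congr 3
    apply Subtype.ext
    exact add_mul _ _ _
  · rw [tm_of_not w hd, tm_of_not w hd, tm_of_not w hd, add_zero]

include hu0 hu hu' in
lemma tm_mul (hρ : 0 < ρ) {d e : ℤ} {a b : K} (ha : hm d a ∈ C) (hb : hm e b ∈ C) :
    tm (C := C) (ρ := ρ) u w d a * tm (C := C) (ρ := ρ) u w e b =
      tm (C := C) (ρ := ρ) u w (d + e) (a * b) := by
  have hρ' : (0 : ℤ) < ρ := by exact_mod_cast hρ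
  by_cases hd : (ρ : ℤ) ∣ d
  · by_cases he : (ρ : ℤ) ∣ e
    · have h1 := shift_zero hu hu' hd ha
      have h2 := shift_zero hu hu' he hb
      have hde : (ρ : ℤ) ∣ d + e := dvd_add hd he
      have hab : hm (d + e) (a * b) ∈ C := by
        rw [← hm_mul]; exact C.mul_mem ha hb
      have h3 := shift_zero hu hu' hde hab
      rw [tm_of_dvd w hd h1, tm_of_dvd w he h2, tm_of_dvd w hde h3]
      have hq : (d + e) / (ρ : ℤ) = d / ρ + e / ρ := Int.add_ediv_of_dvd_left hd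
      have h4 : (⟨a * b * u ^ (-((d + e) / (ρ : ℤ))), h3⟩ : d0 C) =
          ⟨a * u ^ (-(d / (ρ : ℤ))), h1⟩ * ⟨b * u ^ (-(e / (ρ : ℤ))), h2⟩ := by
        apply Subtype.ext
        change a * b * u ^ (-((d + e) / (ρ : ℤ))) =
          (a * u ^ (-(d / (ρ : ℤ)))) * (b * u ^ (-(e / (ρ : ℤ))))
        rw [hq, neg_add, zpow_add₀ hu0]
        ring
      rw [h4, map_mul, map_mul, hq, zpow_add, Units.val_mul]
      ring
    · have hde : ¬ (ρ : ℤ) ∣ d + e := fun h => he ((Int.dvd_add_right hd).mp h)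
      rw [tm_of_not w he, tm_of_not w hde, mul_zero]
  · by_cases he : (ρ : ℤ) ∣ e
    · have hde : ¬ (ρ : ℤ) ∣ d + e := fun h => hd ((Int.dvd_add_left he).mp h)
      rw [tm_of_not w hd, tm_of_not w hde, zero_mul]
    · rw [tm_of_not w hd, zero_mul]
      by_cases hde : (ρ : ℤ) ∣ d + e
      · have hab : hm (d + e) (a * b) ∈ C := by
          rw [← hm_mul]; exact C.mul_mem ha hb
        have h3 := shift_zero hu hu' hde hab
        rw [tm_of_dvd w hde h3]
        have h5 : Ideal.Quotient.mk (I0 C ρ) ⟨a * b * u ^ (-((d + e) / (ρ : ℤ))), h3⟩ = 0 := by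
          rw [Ideal.Quotient.eq_zero_iff_mem]
          unfold I0
          apply Ideal.subset_span
          have hmod0 := Int.emod_nonneg d hρ'.ne'
          have hmod1 := Int.emod_lt_of_pos d hρ'
          have hdiv := Int.mul_ediv_add_emod d ρ
          have hmne : d % ρ ≠ 0 := fun h => hd (Int.dvd_of_emod_eq_zero h)
          obtain ⟨i, hi⟩ := Int.eq_ofNat_of_zero_le hmod0
          refine ⟨i, by omega, by omega, a * u ^ (-(d / (ρ : ℤ))),
            b * u ^ (-((d + e) / (ρ : ℤ) - d / ρ)), ?_, ?_, ?_⟩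
          · have h6 := shift_mem hu hu' ha (d / ρ)
            have e1 : d - d / ρ * ρ = (i : ℤ) := by
              rw [← hi]; linear_combination (-1 : ℤ) * hdiv
            rwa [e1] at h6
          · have h6 := shift_mem hu hu' hb ((d + e) / ρ - d / ρ)
            have h7 := Int.ediv_mul_cancel hde
            have e1 : e - ((d + e) / ρ - d / ρ) * ρ = -(i : ℤ) := by
              rw [← hi, sub_mul, h7]; linear_combination hdiv
            rwa [e1] at h6
          · change a * b * u ^ (-((d + e) / (ρ : ℤ))) = _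
            have e1 : -((d + e) / (ρ : ℤ)) = -(d / ρ) + -((d + e) / ρ - d / ρ) := by ring
            rw [e1, zpow_add₀ hu0]
            ring
        rw [h5, map_zero, zero_mul]
      · rw [tm_of_not w hde]

/-- the homogeneous components -/
noncomputable def cmp (hC : Gr C) (f : C) (d : ℤ) : C := ⟨hm d ((f : LP K).coeff d), hC f f.2 d⟩

lemma eq_sum_cmp (hC : Gr C) (f : C) : f = ∑ d ∈ (f : LP K).coeff.support, cmp hC f d := by
  apply Subtype.ext
  rw [AddSubmonoidClass.coe_finsetSum]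
  exact eq_sum_hm (f : LP K)

/-- the additive map -/
noncomputable def phiFun (u : K) (w : Bˣ) (f : C) : B :=
  ∑ d ∈ (f : LP K).coeff.support, tm (C := C) (ρ := ρ) u w d ((f : LP K).coeff d)

lemma phiFun_eq (f : C) {s : Finset ℤ} (hs : (f : LP K).coeff.support ⊆ s) :
    phiFun (ρ := ρ) u w f = ∑ d ∈ s, tm (C := C) (ρ := ρ) u w d ((f : LP K).coeff d) := by
  unfold phiFun
  apply Finset.sum_subset hs
  intro d _ hd
  rw [Finsupp.notMem_support_iff] at hd
  rw [hd, tm_zero]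

lemma phiFun_hm {d : ℤ} {a : K} (h : hm d a ∈ C) :
    phiFun (ρ := ρ) u w (⟨hm d a, h⟩ : C) = tm (C := C) (ρ := ρ) u w d a := by
  rw [phiFun_eq w (⟨hm d a, h⟩ : C) (s := {d})]
  · rw [Finset.sum_singleton]
    change tm u w d ((hm d a).coeff d) = _
    rw [coeff_hm_same]
  · intro e he
    rw [Finsupp.mem_support_iff] at he
    rw [Finset.mem_singleton]
    by_contra hne
    apply he
    change (hm d a).coeff e = 0
    rw [coeff_hm, if_neg (Ne.symm hne)]

include hu hu' in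
lemma phiFun_add (hC : Gr C) (f g : C) :
    phiFun (ρ := ρ) u w (f + g) = phiFun (ρ := ρ) u w f + phiFun (ρ := ρ) u w g := by
  classical
  set s := (f : LP K).coeff.support ∪ (g : LP K).coeff.support with hs
  have h1 : ((f + g : C) : LP K).coeff.support ⊆ s := by
    intro d hd
    rw [Finsupp.mem_support_iff] at hd
    rw [hs, Finset.mem_union, Finsupp.mem_support_iff, Finsupp.mem_support_iff]
    by_contra hcon
    push Not at hcon
    apply hd
    change (((f : LP K) + (g : LP K)).coeff) d = 0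
    rw [AddMonoidAlgebra.coeff_add, Finsupp.add_apply, hcon.1, hcon.2, add_zero]
  rw [phiFun_eq w _ h1, phiFun_eq w f (s := s) Finset.subset_union_left,
    phiFun_eq w g (s := s) Finset.subset_union_right, ← Finset.sum_add_distrib]
  refine Finset.sum_congr rfl fun d _ => ?_
  rw [← tm_add w hu hu' (hC f f.2 d) (hC g g.2 d)]
  congr 1

/-- the additive map -/
noncomputable def phiAdd (hC : Gr C) (hu : hm ρ u ∈ C) (hu' : hm (-ρ) u⁻¹ ∈ C) (w : Bˣ) : C →+ B where
  toFun := phiFun (ρ := ρ) u w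
  map_zero' := by
    have h := phiFun_add w hu hu' hC (0 : C) 0
    rw [add_zero] at h
    exact left_eq_add.mp h
  map_add' := phiFun_add w hu hu' hC

/-- the ring homomorphism -/
noncomputable def phi (hC : Gr C) (hρ : 0 < ρ) (hu0 : u ≠ 0) (hu : hm ρ u ∈ C)
    (hu' : hm (-ρ) u⁻¹ ∈ C) (w : Bˣ) : C →+* B where
  toFun := phiAdd hC hu hu' w
  map_zero' := (phiAdd hC hu hu' w).map_zero
  map_add' := (phiAdd hC hu hu' w).map_add
  map_one' := by
    have h1 : hm 0 (1 : K) ∈ C := by rw [hm_one]; exact C.one_mem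
    have h2 : (1 : C) = ⟨hm 0 1, h1⟩ := Subtype.ext hm_one.symm
    change phiFun (ρ := ρ) u w 1 = 1
    rw [h2, phiFun_hm]
    have h3 : hm 0 ((1 : K) * u ^ (-((0 : ℤ) / ρ))) ∈ C := by
      rw [Int.zero_ediv, neg_zero, zpow_zero, one_mul]; exact h1
    rw [tm_of_dvd w (dvd_zero _) h3]
    have h4 : (⟨(1 : K) * u ^ (-((0 : ℤ) / ρ)), h3⟩ : d0 C) = 1 := by
      apply Subtype.ext
      change (1 : K) * u ^ (-((0 : ℤ) / ρ)) = 1
      rw [Int.zero_ediv, neg_zero, zpow_zero, one_mul]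
    rw [h4, map_one, map_one, Int.zero_ediv, zpow_zero, Units.val_one, mul_one]
  map_mul' f g := by
    classical
    have hhm : ∀ {d : ℤ} {a : K} (h : hm d a ∈ C), phiAdd hC hu hu' w ⟨hm d a, h⟩ =
      tm (C := C) (ρ := ρ) u w d a := fun h => phiFun_hm w h
    have e1 : f * g = ∑ d ∈ (f : LP K).coeff.support, ∑ e ∈ (g : LP K).coeff.support,
        cmp hC f d * cmp hC g e := by
      conv_lhs => rw [eq_sum_cmp hC f, eq_sum_cmp hC g, Finset.sum_mul_sum]
    have e2 : ∀ d e, phiAdd hC hu hu' w (cmp hC f d * cmp hC g e) =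
        tm (C := C) (ρ := ρ) u w d ((f : LP K).coeff d) *
          tm (C := C) (ρ := ρ) u w e ((g : LP K).coeff e) := by
      intro d e
      rw [tm_mul w hu0 hu hu' hρ (hC f f.2 d) (hC g g.2 e)]
      have h5 : hm (d + e) ((f : LP K).coeff d * (g : LP K).coeff e) ∈ C := by
        rw [← hm_mul]; exact C.mul_mem (hC f f.2 d) (hC g g.2 e)
      rw [← hhm h5]
      congr 1
      apply Subtype.ext
      exact hm_mul _ _ _ _
    rw [e1, map_sum]
    simp_rw [map_sum, e2]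
    rw [← Finset.sum_mul_sum]
    rfl

lemma phi_hm (hC : Gr C) (hρ : 0 < ρ) {d : ℤ} {a : K} (h : hm d a ∈ C) :
    phi hC hρ hu0 hu hu' w ⟨hm d a, h⟩ = tm (C := C) (ρ := ρ) u w d a := phiFun_hm w h

/-- two ring homomorphisms of `C` agree if they agree on homogeneous elements -/
lemma hom_ext (hC : Gr C) {B' : Type} [CommRing B'] {F G : C →+* B'}
    (h : ∀ (d : ℤ) (a : K) (hd : hm d a ∈ C), F ⟨hm d a, hd⟩ = G ⟨hm d a, hd⟩) : F = G := by
  ext f
  rw [eq_sum_cmp hC f, map_sum, map_sum]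
  exact Finset.sum_congr rfl fun d _ => h _ _ _

/-- functoriality -/
lemma phi_comp (hC : Gr C) (hρ : 0 < ρ) {B' : Type} [CommRing B'] [Algebra (d0 C ⧸ I0 C ρ) B']
    (g : B →ₐ[d0 C ⧸ I0 C ρ] B') (w' : B'ˣ) (hw : g w = w') :
    (g : B →+* B').comp (phi hC hρ hu0 hu hu' w) = phi hC hρ hu0 hu hu' w' := by
  apply hom_ext hC
  intro d a hd
  rw [RingHom.comp_apply, phi_hm, phi_hm]
  by_cases hdd : (ρ : ℤ) ∣ d
  · have h1 := shift_zero hu hu' hdd hd
    rw [tm_of_dvd w hdd h1, tm_of_dvd w' hdd h1, map_mul]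
    congr 1
    · exact g.commutes _
    · have h2 : w' = Units.map (g : B →* B') w := by
        apply Units.ext
        rw [Units.coe_map]
        exact hw.symm
      rw [h2, ← map_zpow, Units.coe_map]
      rfl
  · rw [tm_of_not w hdd, tm_of_not w' hdd, map_zero]

end hom

end Pool.Agent.Y642.G
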